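import Pool.Agent.helper23.F2.Spec

/-!
# MP_26dbae_co, closure theorem: AL4 (most pairs of walks are good)
-/

set_option autoImplicit false

open scoped BigOperators

namespace Pool.Agent.F2

open Pool.Agent.helper23.TH

noncomputable section

open Classical

theorem AL4_dec {α : Type} (s : Finset α) (p : α → Prop) (d1 d2 : DecidablePred p) :
    (@Finset.filter α p d1 s).card = (@Finset.filter α p d2 s).card := by
  have h : d1 = d2 := Subsingleton.elim _ _
  rw [h]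

/-- the pairs of walks without conflicts whose ends are not strongly joined -/
theorem AL4_fib {V L : Type} [Fintype V] [Fintype L] {b s : ℕ} (G : LG V L b s) (k q : ℕ) :
    (((PP G.A (k + 1)).filter fun p => G.Cln p.1 ∧ G.Cln p.2 ∧
      ¬ G.Str (k + 1) q (p.1 0) (p.1 (Fin.last (k + 1)))).card : ℝ) ≤
    ∑ x, ∑ y, (if G.Str (k + 1) q x y then 0 else
      (((G.WW (k + 1) x y).filter fun P => G.Cln P).card : ℝ) ^ 2) := by
  have h1 : ((PP G.A (k + 1)).filter fun p => G.Cln p.1 ∧ G.Cln p.2 ∧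
      ¬ G.Str (k + 1) q (p.1 0) (p.1 (Fin.last (k + 1)))) ⊆
      (Finset.univ : Finset V).biUnion fun x => (Finset.univ : Finset V).biUnion fun y =>
        (if G.Str (k + 1) q x y then ∅ else
          ((G.WW (k + 1) x y).filter fun P => G.Cln P) ×ˢ
            ((G.WW (k + 1) x y).filter fun P => G.Cln P)) := by
    intro p hp
    rw [Finset.mem_filter] at hp
    obtain ⟨h2, h3, h4, h5⟩ := hp
    have h6 : Wk G.A (k + 1) p.1 ∧ Wk G.A (k + 1) p.2 ∧ p.1 0 = p.2 0 ∧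
        p.1 (Fin.last (k + 1)) = p.2 (Fin.last (k + 1)) := by
      unfold PP at h2
      rw [Finset.mem_filter] at h2
      exact h2.2
    obtain ⟨h7, h8, h9, h10⟩ := h6
    rw [Finset.mem_biUnion]
    refine ⟨p.1 0, Finset.mem_univ _, ?_⟩
    rw [Finset.mem_biUnion]
    refine ⟨p.1 (Fin.last (k + 1)), Finset.mem_univ _, ?_⟩
    rw [if_neg h5, Finset.mem_product, Finset.mem_filter, Finset.mem_filter]
    refine ⟨⟨?_, h3⟩, ⟨?_, h4⟩⟩
    · unfold LG.WW
      rw [Finset.mem_filter]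
      exact ⟨Finset.mem_univ _, h7, rfl, rfl⟩
    · unfold LG.WW
      rw [Finset.mem_filter]
      exact ⟨Finset.mem_univ _, h8, h9.symm, h10.symm⟩
  have h2 : ((PP G.A (k + 1)).filter fun p => G.Cln p.1 ∧ G.Cln p.2 ∧
      ¬ G.Str (k + 1) q (p.1 0) (p.1 (Fin.last (k + 1)))).card ≤
      ∑ x : V, ∑ y : V, (if G.Str (k + 1) q x y then 0 else
        ((G.WW (k + 1) x y).filter fun P => G.Cln P).card ^ 2) := by
    refine (Finset.card_le_card h1).trans ?_
    refine Finset.card_biUnion_le.trans ?_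
    refine Finset.sum_le_sum fun x _ => ?_
    refine Finset.card_biUnion_le.trans ?_
    refine Finset.sum_le_sum fun y _ => ?_
    by_cases h3 : G.Str (k + 1) q x y
    · rw [if_pos h3, if_pos h3]
      simp
    · rw [if_neg h3, if_neg h3, Finset.card_product, sq]
  have h3 : (((∑ x : V, ∑ y : V, (if G.Str (k + 1) q x y then 0 else
        ((G.WW (k + 1) x y).filter fun P => G.Cln P).card ^ 2) : ℕ)) : ℝ) =
      ∑ x, ∑ y, (if G.Str (k + 1) q x y then 0 else
      (((G.WW (k + 1) x y).filter fun P => G.Cln P).card : ℝ) ^ 2) := by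
    push_cast
    rfl
  rw [← h3]
  exact_mod_cast h2

/-- the sum of the inner objects -/
theorem AL4_inn {V L : Type} [Fintype V] [Fintype L] {b s : ℕ} (hMT7 : MT7_stmt) (hMT8 : MT8_stmt)
    (G : LG V L b s) (Δ : ℝ) (hΔ : ∀ v, (dg G.A Finset.univ v : ℝ) ≤ Δ) (h0 : 0 ≤ Δ) (t : ℕ) :
    ∑ o ∈ Finset.univ.filter (fun o : Ob t => Inn o), G.FF t o ≤
      (2 * t + 1) * (b * s * Δ * hh G.A (t - 1)) := by
  have hnn : 0 ≤ hh G.A (t - 1) := by
    unfold hh
    exact Finset.sum_nonneg fun _ _ => Finset.sum_nonneg fun _ _ => sq_nonneg _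
  have hX : 0 ≤ (b : ℝ) * s * Δ * hh G.A (t - 1) := by positivity
  have h1 : ∀ o ∈ Finset.univ.filter (fun o : Ob t => Inn o), G.FF t o ≤ b * s * Δ * hh G.A (t - 1) := by
    intro o ho
    rw [Finset.mem_filter] at ho
    obtain ⟨_, h2, h3⟩ := ho
    rcases o with i | j
    · refine hMT7 V L b s G Δ hΔ t i ?_ ?_
      · intro h
        exact h2 (by rw [h])
      · intro h
        exact h3 (by rw [h])
    · exact hMT8 V L b s G Δ hΔ t j
  refine (Finset.sum_le_card_nsmul _ _ _ h1).trans ?_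
  rw [nsmul_eq_mul]
  refine mul_le_mul_of_nonneg_right ?_ hX
  have h4 : (Finset.univ.filter (fun o : Ob t => Inn o)).card ≤ 2 * t + 1 := by
    refine (Finset.card_filter_le _ _).trans ?_
    rw [Finset.card_univ, Fintype.card_sum, Fintype.card_fin, Fintype.card_fin]
    omega
  exact_mod_cast h4

/-- the closed walks which are not good -/
theorem AL4_sub {V L : Type} [Fintype V] [Fintype L] {b s : ℕ} (hAL1 : AL1_stmt) (G : LG V L b s)
    (k q : ℕ) (hk : 1 ≤ k) :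
    ((Finset.univ : Finset (ZMod (2 * k + 2) → V)).filter fun z =>
      CWk G.A k z ∧ ¬ G.GP k q (fc 1 z) (gc 1 z)) ⊆
    ((Finset.univ : Finset (ZMod (2 * k + 2))).biUnion fun c =>
      (Finset.univ : Finset (ZMod (2 * k + 2) → V)).filter fun z =>
        CWk G.A k z ∧ G.XC (fc c z) (gc c z)) ∪
    ((Finset.univ : Finset (ZMod (2 * k + 2) → V)).filter fun z => CWk G.A k z ∧
      (G.Cln (fc 0 z) ∧ G.Cln (gc 0 z) ∧
        ¬ G.Str (k + 1) q (fc 0 z 0) (fc 0 z (Fin.last (k + 1))))) := by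
  intro z hz
  rw [Finset.mem_filter] at hz
  obtain ⟨_, h1, h2⟩ := hz
  rw [Finset.mem_union]
  by_cases h3 : ∃ c, G.XC (fc c z) (gc c z)
  · obtain ⟨c, hc⟩ := h3
    left
    rw [Finset.mem_biUnion]
    refine ⟨c, Finset.mem_univ _, ?_⟩
    rw [Finset.mem_filter]
    exact ⟨Finset.mem_univ _, h1, hc⟩
  · right
    rw [Finset.mem_filter]
    have h4 : ∀ c, ¬ G.XC (fc c z) (gc c z) := fun c hc => h3 ⟨c, hc⟩
    have h5 := hAL1 V L b s G k z hk h4
    refine ⟨Finset.mem_univ _, h1, (h5 0).1, (h5 0).2, ?_⟩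
    intro h6
    apply h2
    refine ⟨(h5 1).1, (h5 1).2, h4 1, ?_⟩
    have e1 : gc 1 z 1 = fc 0 z 0 := by
      unfold gc fc
      have e2 : (((1 : Fin (k + 2)) : ℕ) : ZMod (2 * k + 2)) = 1 := by
        rw [Fin.val_one]
        simp
      have e3 : (((0 : Fin (k + 2)) : ℕ) : ZMod (2 * k + 2)) = 0 := by
        rw [Fin.val_zero]
        simp
      rw [e2, e3]
      simp
    have e4 : fc 1 z (Fin.last k).castSucc = fc 0 z (Fin.last (k + 1)) := by
      unfold fc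
      have e5 : ((((Fin.last k).castSucc : Fin (k + 2)) : ℕ) : ZMod (2 * k + 2)) = (k : ZMod (2 * k + 2)) := by
        rw [Fin.val_castSucc, Fin.val_last]
      have e6 : (((Fin.last (k + 1) : Fin (k + 2)) : ℕ) : ZMod (2 * k + 2)) = (k : ZMod (2 * k + 2)) + 1 := by
        rw [Fin.val_last]
        push_cast
        rfl
      rw [e5, e6, zero_add, add_comm]
    rw [e1, e4]
    exact h6

theorem AL4 (hWK3 : WK3_stmt) (hWK4 : WK4_stmt) (hAL1 : AL1_stmt) (hAL2 : AL2_stmt) (hAL3 : AL3_stmt) (hMT7 : MT7_stmt) (hMT8 : MT8_stmt) (hMT9 : MT9_stmt) : AL4_stmt := by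
  intro k q b s δ hk hδ
  have _h := hWK3
  set M1 : ℝ := (2 * k + 2) * ((2 * (k + 1) + 1) ^ 2 * (b * (s + 1))) with hM1
  set M2 : ℝ := (q * (2 * (k + 1) + 1) ^ 2 * b) * ((2 * (k + 1) + 1) * (b * s)) with hM2
  have hM1n : 0 ≤ M1 := by rw [hM1]; positivity
  have hM2n : 0 ≤ M2 := by rw [hM2]; positivity
  set η : ℝ := min 1 (δ / (M1 + M2 + 1)) with hη
  have hη0 : 0 < η := by
    rw [hη]
    refine lt_min one_pos ?_
    positivity
  have hη1 : η ≤ 1 := min_le_left _ _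
  have hη2 : (M1 + M2) * η ≤ δ := by
    have h1 : η ≤ δ / (M1 + M2 + 1) := min_le_right _ _
    have h2 : η * (M1 + M2 + 1) ≤ δ := by
      rwa [le_div_iff₀ (by positivity)] at h1
    nlinarith
  refine ⟨((η ^ 2) ^ (k + 1))⁻¹, by positivity, ?_⟩
  intro V L _ _ G Δ hΔ0 hΔ hC
  have hhn : 0 ≤ hh G.A (k + 1) := by
    unfold hh
    exact Finset.sum_nonneg fun _ _ => Finset.sum_nonneg fun _ _ => sq_nonneg _
  have h1 : (Fintype.card V : ℝ) * Δ ^ (k + 1) ≤ (η ^ 2) ^ (k + 1) * hh G.A (k + 1) := by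
    have h2 : 0 < (η ^ 2) ^ (k + 1) := by positivity
    have h3 := mul_le_mul_of_nonneg_left hC h2.le
    have h4 : (η ^ 2) ^ (k + 1) * (((η ^ 2) ^ (k + 1))⁻¹ * Fintype.card V * Δ ^ (k + 1)) =
        Fintype.card V * Δ ^ (k + 1) := by
      field_simp
    rwa [h4] at h3
  have h2 : Δ * hh G.A (k + 1 - 1) ≤ η ^ 2 * hh G.A (k + 1) :=
    hMT9 V G.A G.symm (k + 1) Δ (η ^ 2) (by omega) hΔ0 (by positivity) h1
  -- the number of conflicts
  have hX : ∀ c : ZMod (2 * k + 2), (((Finset.univ : Finset (ZMod (2 * k + 2) → V)).filter fun z =>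
        CWk G.A k z ∧ G.XC (fc c z) (gc c z)).card : ℝ) ≤
      (2 * (k + 1) + 1) ^ 2 * (b * (s + 1)) * η * hh G.A (k + 1) := by
    intro c
    have h3 := hWK4 V G.A G.symm k c (fun P Q => G.XC P Q)
    have h4 := hAL2 V L b s G Δ (k + 1) η hΔ hΔ0 hη0.le hη1 h2
    rw [h3]
    refine h4.trans (le_of_eq ?_)
    push_cast
    ring
  have hS : (((Finset.univ : Finset (ZMod (2 * k + 2) → V)).filter fun z => CWk G.A k z ∧
      (G.Cln (fc 0 z) ∧ G.Cln (gc 0 z) ∧
        ¬ G.Str (k + 1) q (fc 0 z 0) (fc 0 z (Fin.last (k + 1))))).card : ℝ) ≤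
      M2 * (η ^ 2 * hh G.A (k + 1)) := by
    have h3' := hWK4 V G.A G.symm k 0 (fun P Q => G.Cln P ∧ G.Cln Q ∧
      ¬ G.Str (k + 1) q (P 0) (P (Fin.last (k + 1))))
    have h3 : ((Finset.univ : Finset (ZMod (2 * k + 2) → V)).filter fun z => CWk G.A k z ∧
      (G.Cln (fc 0 z) ∧ G.Cln (gc 0 z) ∧
        ¬ G.Str (k + 1) q (fc 0 z 0) (fc 0 z (Fin.last (k + 1))))).card =
      ((PP G.A (k + 1)).filter fun p => G.Cln p.1 ∧ G.Cln p.2 ∧
      ¬ G.Str (k + 1) q (p.1 0) (p.1 (Fin.last (k + 1)))).card :=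
      (AL4_dec _ _ _ _).trans (h3'.trans (AL4_dec _ _ _ _))
    rw [h3]
    refine (AL4_fib G k q).trans ?_
    refine (hAL3 V L b s G (k + 1) q).trans ?_
    have h4 := AL4_inn hMT7 hMT8 G Δ hΔ hΔ0 (k + 1)
    have h5 : (0 : ℝ) ≤ q * (2 * ((k + 1 : ℕ) : ℝ) + 1) ^ 2 * b := by positivity
    refine (mul_le_mul_of_nonneg_left h4 h5).trans ?_
    have h6 : ((q : ℝ) * (2 * ((k + 1 : ℕ) : ℝ) + 1) ^ 2 * b) *
        ((2 * ((k + 1 : ℕ) : ℝ) + 1) * (b * s * Δ * hh G.A (k + 1 - 1))) =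
        M2 * (Δ * hh G.A (k + 1 - 1)) := by
      rw [hM2]
      push_cast
      ring
    rw [h6]
    exact mul_le_mul_of_nonneg_left h2 hM2n
  have h7' := hWK4 V G.A G.symm k 1 (fun P Q => ¬ G.GP k q P Q)
  have h7 : ((PP G.A (k + 1)).filter fun p => ¬ G.GP k q p.1 p.2).card =
      ((Finset.univ : Finset (ZMod (2 * k + 2) → V)).filter fun z =>
      CWk G.A k z ∧ ¬ G.GP k q (fc 1 z) (gc 1 z)).card :=
    (AL4_dec _ _ _ _).trans (h7'.symm.trans (AL4_dec _ _ _ _))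
  rw [h7]
  have h8 := Finset.card_le_card (AL4_sub hAL1 G k q hk)
  have h9 := h8.trans (Finset.card_union_le _ _)
  have h10 : (((Finset.univ : Finset (ZMod (2 * k + 2))).biUnion fun c =>
      (Finset.univ : Finset (ZMod (2 * k + 2) → V)).filter fun z =>
        CWk G.A k z ∧ G.XC (fc c z) (gc c z)).card : ℝ) ≤ M1 * η * hh G.A (k + 1) := by
    have h11 : (((Finset.univ : Finset (ZMod (2 * k + 2))).biUnion fun c =>
      (Finset.univ : Finset (ZMod (2 * k + 2) → V)).filter fun z =>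
        CWk G.A k z ∧ G.XC (fc c z) (gc c z)).card : ℝ) ≤
        ((∑ c : ZMod (2 * k + 2), ((Finset.univ : Finset (ZMod (2 * k + 2) → V)).filter fun z =>
        CWk G.A k z ∧ G.XC (fc c z) (gc c z)).card : ℕ) : ℝ) := by
      exact_mod_cast Finset.card_biUnion_le
    refine h11.trans ?_
    rw [Nat.cast_sum]
    refine (Finset.sum_le_card_nsmul _ _ _ fun c _ => hX c).trans (le_of_eq ?_)
    rw [Finset.card_univ, ZMod.card, nsmul_eq_mul, hM1]
    push_cast
    ring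
  have h12 : (((Finset.univ : Finset (ZMod (2 * k + 2) → V)).filter fun z =>
      CWk G.A k z ∧ ¬ G.GP k q (fc 1 z) (gc 1 z)).card : ℝ) ≤
      (((Finset.univ : Finset (ZMod (2 * k + 2))).biUnion fun c =>
      (Finset.univ : Finset (ZMod (2 * k + 2) → V)).filter fun z =>
        CWk G.A k z ∧ G.XC (fc c z) (gc c z)).card : ℝ) +
      (((Finset.univ : Finset (ZMod (2 * k + 2) → V)).filter fun z => CWk G.A k z ∧
      (G.Cln (fc 0 z) ∧ G.Cln (gc 0 z) ∧
        ¬ G.Str (k + 1) q (fc 0 z 0) (fc 0 z (Fin.last (k + 1))))).card : ℝ) := by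
    exact_mod_cast h9
  refine h12.trans ((add_le_add h10 hS).trans ?_)
  have h13 : η ^ 2 ≤ η := by nlinarith
  have h14 : M2 * (η ^ 2 * hh G.A (k + 1)) ≤ M2 * (η * hh G.A (k + 1)) :=
    mul_le_mul_of_nonneg_left (mul_le_mul_of_nonneg_right h13 hhn) hM2n
  have h15 : (M1 + M2) * η * hh G.A (k + 1) ≤ δ * hh G.A (k + 1) :=
    mul_le_mul_of_nonneg_right hη2 hhn
  calc M1 * η * hh G.A (k + 1) + M2 * (η ^ 2 * hh G.A (k + 1))
      ≤ M1 * η * hh G.A (k + 1) + M2 * (η * hh G.A (k + 1)) := by linarith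
    _ = (M1 + M2) * η * hh G.A (k + 1) := by ring
    _ ≤ δ * hh G.A (k + 1) := h15

end

end Pool.Agent.F2
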